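import Pool.Agent.W788.NV.Stm

/-!
# Project NV: existence and uniqueness of the stationary law of the noisy voter model
-/

namespace Pool.Agent.W906.NV

open Finset Pool.Agent.W788.NV

lemma mgen_mulVec {S ι : Type} [Fintype S] [DecidableEq S] [Fintype ι]
    (r : ι → ℝ) (m : ι → S → S) (F : S → ℝ) :
    Matrix.mulVec (mgen r m) F = gf r m F := by
  funext x
  simp only [Matrix.mulVec, dotProduct, mgen, gf, Finset.sum_mul]
  rw [Finset.sum_comm]
  refine Finset.sum_congr rfl (fun e _ => ?_)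
  simp only [mul_sub, sub_mul, Finset.sum_sub_distrib, mul_ite, ite_mul, mul_one, mul_zero,
    zero_mul, Finset.sum_ite_eq', Finset.mem_univ, if_true]

/-- the mean of `pt t f` under a left null vector of the generator is constant in `t` -/
lemma mean_pt (h : MK) (h4 : S_GEN) (V : Type) [Fintype V] [DecidableEq V]
    (G : SimpleGraph V) (q : ℕ) (θ : ℝ) (μ : (V → Fin q) → ℝ)
    (hμ : Matrix.vecMul μ (gen G q θ) = 0) (f : (V → Fin q) → ℝ) (t : ℝ) :
    mean μ (pt G q θ t f) = mean μ f := by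
  have hd : ∀ s : ℝ, HasDerivAt (fun s => mean μ (pt G q θ s f)) 0 s := by
    intro s
    have h1 : HasDerivAt (fun s => mean μ (pt G q θ s f))
        (∑ x, μ x * sg (mrate G q θ) (act (V := V) (q := q)) s
          (gf (mrate G q θ) (act (V := V) (q := q)) f) x) s := by
      unfold mean
      apply HasDerivAt.fun_sum
      intro x _
      exact (h.deriv _ _ (mrate G q θ) (act (V := V) (q := q)) f x s).const_mul (μ x)
    have h2 : (∑ x, μ x * sg (mrate G q θ) (act (V := V) (q := q)) s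
          (gf (mrate G q θ) (act (V := V) (q := q)) f) x) = 0 := by
      rw [h.comm, ← mgen_mulVec, ← h4 V G q θ]
      have : (∑ x, μ x * Matrix.mulVec (gen G q θ)
          (sg (mrate G q θ) (act (V := V) (q := q)) s f) x)
          = dotProduct μ (Matrix.mulVec (gen G q θ)
          (sg (mrate G q θ) (act (V := V) (q := q)) s f)) := rfl
      rw [this, Matrix.dotProduct_mulVec, hμ, zero_dotProduct]
    rwa [h2] at h1
  have hc := is_const_of_deriv_eq_zero (fun s => (hd s).differentiableAt) (fun s => (hd s).deriv)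
    t 0
  rw [hc]
  unfold pt
  rw [h.zero]

lemma pt_nonneg (h : MK) (h3 : S_TOT) (V : Type) [Fintype V] [DecidableEq V]
    (G : SimpleGraph V) (q : ℕ) (θ : ℝ) (hq : 1 ≤ q) (hθ : 0 < θ) (hθ1 : θ ≤ 1)
    (hG : ∀ v, 1 ≤ dg G v) (f : (V → Fin q) → ℝ) (hf : ∀ x, 0 ≤ f x) (t : ℝ) (ht : 0 ≤ t)
    (x : V → Fin q) : 0 ≤ pt G q θ t f x := by
  have hr := (h3 V G q θ hq hθ.le hθ1 hG).1
  have h5 := h.mono _ _ (mrate G q θ) (act (V := V) (q := q)) (fun _ => 0) f x t hr ht hf
  rwa [h.cst] at h5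

/-- `(∑ μ) * pt t f x0` tends to `mean μ f` for every left null vector `μ` of the generator -/
lemma tendsto_pt (h : MK) (h2 : S_OSC) (h4 : S_GEN) (V : Type) [Fintype V] [DecidableEq V]
    (G : SimpleGraph V) (q : ℕ) (θ : ℝ) (hq : 1 ≤ q) (hθ : 0 < θ) (hθ1 : θ ≤ 1)
    (hG : ∀ v, 1 ≤ dg G v) (μ : (V → Fin q) → ℝ)
    (hμ : Matrix.vecMul μ (gen G q θ) = 0) (f : (V → Fin q) → ℝ) (x0 : V → Fin q) :
    Filter.Tendsto (fun t => (∑ x, μ x) * pt G q θ t f x0) Filter.atTop (nhds (mean μ f)) := by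
  set c : ℝ := 2 * ∑ x, |f x| with hc
  have hosc : ∀ z z', f z - f z' ≤ c := by
    intro z z'
    have e1 : |f z| ≤ ∑ x, |f x| :=
      Finset.single_le_sum (f := fun x => |f x|) (fun _ _ => abs_nonneg _) (Finset.mem_univ z)
    have e2 : |f z'| ≤ ∑ x, |f x| :=
      Finset.single_le_sum (f := fun x => |f x|) (fun _ _ => abs_nonneg _) (Finset.mem_univ z')
    have e3 := le_abs_self (f z)
    have e4 := neg_abs_le (f z')
    rw [hc]
    linarith
  set Δ : ℕ := ∑ v, dg G v with hΔ
  have hdg : ∀ v, dg G v ≤ Δ := fun v =>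
    Finset.single_le_sum (f := fun v => dg G v) (fun _ _ => Nat.zero_le _) (Finset.mem_univ v)
  have hb : ∀ t : ℝ, 0 ≤ t →
      |mean μ f - (∑ x, μ x) * pt G q θ t f x0| ≤
        ((∑ x, |μ x|) * (c * (Fintype.card V * Δ))) * Real.exp (-θ * t) := by
    intro t ht
    have e1 : mean μ f - (∑ x, μ x) * pt G q θ t f x0
        = ∑ x, μ x * (pt G q θ t f x - pt G q θ t f x0) := by
      rw [← mean_pt h h4 V G q θ μ hμ f t]
      unfold mean
      rw [Finset.sum_mul, ← Finset.sum_sub_distrib]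
      refine Finset.sum_congr rfl (fun x _ => ?_)
      ring
    rw [e1]
    refine (Finset.abs_sum_le_sum_abs _ _).trans ?_
    rw [Finset.sum_mul, Finset.sum_mul]
    refine Finset.sum_le_sum (fun x _ => ?_)
    rw [abs_mul, mul_assoc]
    refine mul_le_mul_of_nonneg_left ?_ (abs_nonneg _)
    have o1 := h2 V G q θ Δ hq hθ hθ1 hG hdg t c f x x0 ht hosc
    have o2 := h2 V G q θ Δ hq hθ hθ1 hG hdg t c f x0 x ht hosc
    rw [abs_le]
    constructor <;> linarith
  have hlim : Filter.Tendsto (fun t : ℝ =>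
      ((∑ x, |μ x|) * (c * (Fintype.card V * Δ))) * Real.exp (-θ * t)) Filter.atTop (nhds 0) := by
    have : Filter.Tendsto (fun t : ℝ => Real.exp (-θ * t)) Filter.atTop (nhds 0) := by
      apply Real.tendsto_exp_atBot.comp
      exact Filter.tendsto_id.const_mul_atTop_of_neg (by linarith)
    simpa using this.const_mul ((∑ x, |μ x|) * (c * (Fintype.card V * Δ)))
  rw [tendsto_iff_norm_sub_tendsto_zero]
  refine squeeze_zero' (Filter.Eventually.of_forall (fun t => norm_nonneg _)) ?_ hlim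
  filter_upwards [Filter.eventually_ge_atTop (0 : ℝ)] with t ht
  rw [Real.norm_eq_abs, abs_sub_comm]
  exact hb t ht

lemma mean_ind {S : Type} [Fintype S] [DecidableEq S] (μ : S → ℝ) (y : S) :
    mean μ (fun x => if x = y then 1 else 0) = μ y := by
  simp [mean]

theorem sta_ (h : MK) (_h1 : S_LAW) (h2 : S_OSC) (h3 : S_TOT) (h4 : S_GEN) : S_STA := by
  intro V _ _ G q θ hq hθ hθ1 hG
  haveI : NeZero q := ⟨by omega⟩
  let x0 : V → Fin q := fun _ => 0
  -- the generator kills the constants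
  have hone : Matrix.mulVec (gen G q θ) (fun _ => (1 : ℝ)) = 0 := by
    rw [h4 V G q θ, mgen_mulVec]
    funext x
    simp [gf]
  have hdet : (gen G q θ).det = 0 := by
    rw [← Matrix.exists_mulVec_eq_zero_iff]
    refine ⟨fun _ => 1, ?_, hone⟩
    intro h0
    have := congrFun h0 x0
    simp at this
  obtain ⟨ν, hν0, hν⟩ := Matrix.exists_vecMul_eq_zero_iff.2 hdet
  have hT := fun (μ : (V → Fin q) → ℝ) (hμ : Matrix.vecMul μ (gen G q θ) = 0) f =>
    tendsto_pt h h2 h4 V G q θ hq hθ hθ1 hG μ hμ f x0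
  have hs : (∑ x, ν x) ≠ 0 := by
    intro h0
    apply hν0
    funext y
    have e := hT ν hν (fun x => if x = y then 1 else 0)
    rw [mean_ind, h0] at e
    simp only [zero_mul] at e
    exact (tendsto_nhds_unique e tendsto_const_nhds)
  set μ : (V → Fin q) → ℝ := fun x => (∑ x, ν x)⁻¹ * ν x with hμd
  have hμ1 : ∑ x, μ x = 1 := by
    rw [hμd]
    simp only
    rw [← Finset.mul_sum, inv_mul_cancel₀ hs]
  have hμ0 : Matrix.vecMul μ (gen G q θ) = 0 := by
    have : μ = (∑ x, ν x)⁻¹ • ν := by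
      funext x
      simp [hμd]
    rw [this, Matrix.smul_vecMul, hν, smul_zero]
  refine ⟨μ, ⟨?_, hμ1, hμ0⟩, ?_⟩
  · intro y
    have e := hT μ hμ0 (fun x => if x = y then 1 else 0)
    rw [mean_ind, hμ1] at e
    refine ge_of_tendsto e ?_
    filter_upwards [Filter.eventually_ge_atTop (0 : ℝ)] with t ht
    rw [one_mul]
    refine pt_nonneg h h3 V G q θ hq hθ hθ1 hG _ (fun x => ?_) t ht x0
    split_ifs <;> norm_num
  · rintro μ' ⟨_, hs', hμ'⟩
    funext y
    have e := hT μ hμ0 (fun x => if x = y then 1 else 0)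
    have e' := hT μ' hμ' (fun x => if x = y then 1 else 0)
    rw [mean_ind, hμ1] at e
    rw [mean_ind, hs'] at e'
    exact tendsto_nhds_unique e' e

end Pool.Agent.W906.NV
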